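import Pool.Agent.Helper59.MB.Goals1

/-! Project MB: goal FCM. -/

set_option autoImplicit false

open MeasureTheory Filter Topology Finset

namespace Pool.Agent.Helper98.MB

open Pool.Agent.Helper59.MB

lemma spec_pair (c : Sp) (i : ℕ) : spec (Nat.pair (Encodable.encode c) i) = c := by
  unfold spec
  rw [Nat.unpair_pair]
  simp

lemma abs_mu_le (a : ℤ) : |mu a| ≤ 1 := by
  unfold mu
  rw [← Int.cast_abs]
  exact_mod_cast ArithmeticFunction.abs_moebius_le_one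

lemma strictMono_s0 : StrictMono s0 := by
  intro a b hab
  unfold s0
  exact Nat.pow_lt_pow_left (by omega) (by norm_num)

lemma le_P_s0 (l : ℕ) : l ≤ P s0 l := by
  unfold P s0
  have h1 : l < 2 ^ l := Nat.lt_two_pow_self
  have h2 : l ≤ (l + 10) ^ 2 := by nlinarith
  have h3 : 2 ^ l ≤ 2 ^ ((l + 10) ^ 2) := Nat.pow_le_pow_right (by norm_num) h2
  omega

theorem t_FCM (hMDT : S_MDT) (hCYL : S_CYL) : S_FCM := by
  intro m _ c ε hε
  obtain ⟨i, hi⟩ := exists_nat_ge (max (c.1 : ℝ) (8 * c.1 / ε))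
  set l := Nat.pair (Encodable.encode c) (i + 1) with hl
  have hil : i + 1 ≤ l := Nat.right_le_pair _ _
  have hsp : spec l = c := spec_pair c (i + 1)
  have hcl : c.1 ≤ l := by
    have : (c.1 : ℝ) ≤ i := le_trans (le_max_left _ _) hi
    have h2 : c.1 ≤ i := by exact_mod_cast this
    omega
  obtain ⟨N₁, hN₁⟩ := hMDT m l (ε / 4) (by positivity)
  obtain ⟨N₂, hN₂⟩ := exists_nat_ge (4 * c.1 / ε)
  refine ⟨max N₁ N₂, fun N hN x hx => ?_⟩
  have h1 := hN₁ N (le_trans (le_max_left _ _) hN) x hx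
  have h2 := hCYL s0 strictMono_s0 c l hsp hcl x N
  have hN2 : 4 * (c.1 : ℝ) / ε ≤ N := by
    have h3 : (N₂ : ℝ) ≤ N := by exact_mod_cast le_trans (le_max_right _ _) hN
    exact hN₂.trans h3
  have hc4 : 4 * (c.1 : ℝ) ≤ ε * N := by
    rw [div_le_iff₀ hε] at hN2
    linarith
  have hPl : (0 : ℝ) < P s0 l := by
    have : 0 < P s0 l := by unfold P; positivity
    exact_mod_cast this
  have hPi : 8 * (c.1 : ℝ) ≤ ε * P s0 l := by
    have h4 : 8 * (c.1 : ℝ) / ε ≤ i := le_trans (le_max_right _ _) hi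
    have h5 : (i : ℝ) ≤ P s0 l := by
      have : i ≤ P s0 l := by
        have := le_P_s0 l
        omega
      exact_mod_cast this
    have h6 := h4.trans h5
    rw [div_le_iff₀ hε] at h6
    linarith
  have hNP : 2 * (c.1 : ℝ) * ((N : ℝ) / P s0 l) ≤ ε / 4 * N := by
    have hN0 : (0 : ℝ) ≤ N := Nat.cast_nonneg N
    rw [← mul_div_assoc, div_le_iff₀ hPl]
    nlinarith
  have hsplit : ∑ n ∈ Icc 1 N, Fc s0 c ((⇑TB)^[n] x) * mu n
      = ∑ n ∈ Icc 1 N, Th s0 l ((⇑TB)^[n] x) * mu n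
        + ∑ n ∈ Icc 1 N, (Fc s0 c ((⇑TB)^[n] x) - Th s0 l ((⇑TB)^[n] x)) * mu n := by
    rw [← Finset.sum_add_distrib]
    apply Finset.sum_congr rfl
    intro n _
    ring
  have h3 : |∑ n ∈ Icc 1 N, (Fc s0 c ((⇑TB)^[n] x) - Th s0 l ((⇑TB)^[n] x)) * mu n|
      ≤ ∑ n ∈ Icc 1 N, |Fc s0 c ((⇑TB)^[n] x) - Th s0 l ((⇑TB)^[n] x)| := by
    refine (Finset.abs_sum_le_sum_abs _ _).trans (Finset.sum_le_sum fun n _ => ?_)
    rw [abs_mul]
    have := abs_mu_le (n : ℤ)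
    nlinarith [abs_nonneg (Fc s0 c ((⇑TB)^[n] x) - Th s0 l ((⇑TB)^[n] x))]
  rw [hsplit]
  have h4 := abs_add_le (∑ n ∈ Icc 1 N, Th s0 l ((⇑TB)^[n] x) * mu n)
    (∑ n ∈ Icc 1 N, (Fc s0 c ((⇑TB)^[n] x) - Th s0 l ((⇑TB)^[n] x)) * mu n)
  have h5 : 2 * (c.1 : ℝ) * ((N : ℝ) / P s0 l + 1) = 2 * (c.1 : ℝ) * ((N : ℝ) / P s0 l) + 2 * c.1 := by
    ring
  rw [h5] at h2
  linarith

end Pool.Agent.Helper98.MB
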